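import Pool.Agent.Q52.SecX.Fam

/-!
# Sections of 100% of all superelliptic curves over all finite extensions at once

Let `K` be a number field, `d ≥ 3`, and for `(a, c₀, …, c_d) ∈ O_K^(d+2)` consider the curves

  `a yⁿ = c₀ + c₁ x + … + c_d x^d`,  `n ≥ 2` not coprime to `d`,

where all coefficients vary.  Let `M` be any natural number.  We prove, for all vectors
`(a, c₀, …, c_d)` outside a set of density zero, with `f = c₀ + … + c_d x^d`:

*Let `L` be a finite extension of `K` of any degree and `ℓ` a prime number that divides `d`.  Suppose
that there are fewer than `M` primes `v` of `K` such that for each prime of `L` above `v` the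
ramification index is divisible by `ℓ` or the residue degree is divisible by `d`, or that `ℓ` does not
divide `[L : K]`.  Then for all `n ≥ 1` divisible by `ℓ` the curve `a yⁿ = f(x)` has no point over `L`,
its fundamental group over `L`, that of its open subcurves over `L` and that of all smooth curves over
`L` which dominate it have no sections over `G_L`, and the geometrically pro-`ℓ` fundamental group of
the curve `a y^ℓ = f(x)` over `L` has no section.*

The exceptional set does not depend on `L`.  The condition is true for all finite extensions `L` of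
`K`, of any degree that is not divisible by `d`, in which fewer than `M` primes of `K` ramify; for all
finite extensions `L` of a degree not divisible by `ℓ`; and for all extensions of degree less than `d`
such that fewer than `M` primes of `K` have only ramification indices divisible by `ℓ`.  So the
section conjecture holds (without points and sections) for 100% of all superelliptic curves, for
`n = 2` for 100% of the hyperelliptic curves of a given genus `g ≥ 1`, `d = 2 g + 2`, at the same time
over the infinitely many fields of this form.  Some condition on `L` is necessary: `f` has a root in a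
field of degree `d` over `K`, and the curve `a y^ℓ = f(x)` has points over the fields
`K((f(x)/a)^(1/ℓ))`, `x ∈ K`.

In `MP_e66f84_ag.SuperellipticFamilies` there is one base field, and the exceptional set depends on
it; here the number field `L` varies and the exceptional set is fixed.  In
`MP_2f3286_ag.SmallExtensions` the polynomial `f` is fixed, only `a` varies, and the degree of `L` is
bounded in terms of `f`.  The set of the exceptional vectors has density zero in a strong sense: for
every `ε > 0` there is an ideal `I ≠ 0` of `O_K` such that the exceptional vectors lie in at most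
`ε #(O_K/I)^(d+2)` residue classes modulo `I`.

The fundamental group is described through valuations.  Let `U` be a smooth geometrically connected
curve over `k` with function field `F`, let `Ω` be an algebraic closure of `F`, and let `F_U` be the
maximal extension of `F` inside `Ω` which is unramified over the closed points of `U`, that is, over
their local rings, which are valuation rings of `F`.  Then `π₁(U) = Gal(F_U/F)`, and the map
`π₁(U) → G_k` is the restriction of automorphisms to the algebraic closure of `k` in `Ω`.

Proof.  For a prime `v` of `K` a proportion of at least `(1/4d) (1/N v - 1/(N v)²)` of all vectors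
modulo `v²` has the property that `a` is divisible exactly once by `v` and `f` is irreducible of degree
`d` modulo `v` (`Pool.Agent.TH377.Sup`, helper377).  As the sum of the `1/N v` diverges, almost all
vectors have this property for at least `M + 1` primes `v` that do not divide `d`.  Let `w` be a prime
of `L` above such a prime `v`, whose ramification index is not divisible by `ℓ` and whose residue degree
is not divisible by `d`.  Then `f` has no root modulo `w`, and the valuation of `a` at `w` is not
divisible by `ℓ`, so that the local theorem for superelliptic curves (`Pool.Agent.Y157.PS.fineP`,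
helper157) shows that there are no sections over `L`.  Otherwise all these `v` are among the fewer
than `M` primes of the theorem, which is not possible; and as `[L : K]` is the sum of the products of
the ramification indices and the residue degrees, it is divisible by `ℓ`.
-/

open Polynomial NumberField IsDedekindDomain

namespace Pool.Agent.Results.MP_c1dca2_ag.AllCurvesAllExtensions

section definitions

variable (ℓ : ℕ) (k F Ω : Type) [Field k] [Field F] [Field Ω] [Algebra k F] [Algebra F Ω]
  [Algebra k Ω]

/-- The inertia group of the valuation ring `W` of `Ω`, as a subgroup of `Gal(Ω/F)`: the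
automorphisms of `Ω` over `F` that map `W` onto itself and act as the identity on its residue
field. -/
noncomputable def inertia (W : ValuationSubring Ω) : Subgroup (Ω ≃ₐ[F] Ω) :=
  (W.inertiaSubgroup F).map (W.decompositionSubgroup F).subtype

/-- `F_U`, for a set `U` of valuation rings of `F`: the elements of `Ω` fixed by the inertia groups
of all valuation rings `W` of `Ω` with `W ∩ F ∈ U`.  If `Ω` is an algebraic closure of a field `F`
of characteristic zero, this is the maximal extension of `F` in `Ω` unramified over `U`. -/
noncomputable def unramified (U : Set (ValuationSubring F)) : IntermediateField F Ω :=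
  ⨅ W : {W : ValuationSubring Ω // W.comap (algebraMap F Ω) ∈ U},
    IntermediateField.fixedField (inertia F Ω W.1)

/-- `k̄ F`, the compositum of `F` and of the algebraic closure of `k` in `Ω`. -/
noncomputable def geomField : IntermediateField F Ω :=
  IntermediateField.adjoin F (algebraicClosure k Ω : Set Ω)

/-- The algebraic extension `L` of `K` in `Ω` is unramified at all valuation rings of `Ω` that
contain `k`: every nonzero element of `L` has the same valuation as an element of `K`.  (If `K` is
a function field of one variable over the algebraic closure of `k` and `k` has characteristic zero,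
then this says that `L/K` is unramified over all points of the smooth projective curve.) -/
def Unramified {k K Ω : Type} [Field k] [Field K] [Field Ω] [Algebra k Ω] [Algebra K Ω]
    (L : IntermediateField K Ω) : Prop :=
  ∀ W : ValuationSubring Ω, (∀ c : k, algebraMap k Ω c ∈ W) → ∀ z ∈ L, z ≠ 0 →
    ∃ t : K, t ≠ 0 ∧ z / algebraMap K Ω t ∈ W ∧ (z / algebraMap K Ω t)⁻¹ ∈ W

/-- `L/K` is a finite Galois extension whose degree is a power of `ℓ`. -/
def FiniteProEll (ℓ : ℕ) {K Ω : Type} [Field K] [Field Ω] [Algebra K Ω]
    (L : IntermediateField K Ω) : Prop :=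
  FiniteDimensional K L ∧ IsGalois K L ∧ ∃ m : ℕ, Module.finrank K L = ℓ ^ m

/-- The maximal unramified pro-`ℓ` extension of `K` in `Ω`: the compositum of the finite Galois
extensions of `K` whose degree is a power of `ℓ` and which are unramified. -/
noncomputable def maxProEll (ℓ : ℕ) (k K Ω : Type) [Field k] [Field K] [Field Ω] [Algebra k Ω]
    [Algebra K Ω] : IntermediateField K Ω :=
  ⨆ L : {L : IntermediateField K Ω // FiniteProEll ℓ L ∧ Unramified (k := k) L}, L.1

/-- `M`, the maximal unramified pro-`ℓ` extension of `k̄ F` in `Ω`, as an extension of `F`. -/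
noncomputable def proEllField : IntermediateField F Ω :=
  (maxProEll ℓ k (geomField k F Ω) Ω).restrictScalars F

/-- The map `τ : M → M` acts as `σ : K → K` on the elements that the fields `K` and `M` have in
common when they are regarded as subfields of `Ω` through `i` and `j`. -/
def ActsAs {K M Ω : Type} [Field K] [Field M] [Field Ω] (i : K →+* Ω) (j : M →+* Ω) (σ : K → K)
    (τ : M → M) : Prop :=
  ∀ c z, j z = i c → j (τ z) = i (σ c)

/-- Let `k ⊆ K ⊆ Ω` and `F ⊆ N ⊆ Ω` be fields.  A splitting of `Gal(N/F) → Gal(K/k)`: a continuous
homomorphism `s` from `Gal(K/k)` to `Gal(N/F)` such that `s(σ)` acts as `σ` on the elements of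
`K ∩ N`. -/
structure Splitting (K N : Type) [Field K] [Field N] [Algebra k K] [Algebra F N] [Algebra K Ω]
    [Algebra N Ω] where
  /-- the homomorphism `Gal(K/k) → Gal(N/F)` -/
  toHom : (K ≃ₐ[k] K) →* (N ≃ₐ[F] N)
  cont : Continuous toHom
  compat : ∀ σ : K ≃ₐ[k] K, ActsAs (algebraMap K Ω) (algebraMap N Ω) σ (toHom σ)

/-- There are no sections of `Gal(N/F) → G_k`, where `G_k = Gal(k̄/k)` and `k̄` is the algebraic
closure of `k` in `Ω`.  For `N = F_U` these are the sections of `π₁(U) → G_k`. -/
def NoSplitting (N : IntermediateField F Ω) : Prop :=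
  IsEmpty (Splitting k F Ω (algebraicClosure k Ω) N)

end definitions

section curves

variable {k : Type} [Field k]

/-- The smooth projective curve with the affine equation `a yⁿ = f(x)` has no point over `k`:
neither in the affine part nor at infinity. -/
def NoPoint (n : ℕ) (a : k) (f : k[X]) : Prop :=
  (¬ ∃ x y : k, a * y ^ n = f.eval x) ∧
    ¬ ∃ r : k, a * r ^ Nat.gcd n f.natDegree = f.leadingCoeff

/-- Let `F` be any field over `k` that contains a point `(x, y)` of the curve `a yⁿ = f(x)`, for
instance the function field of the curve, and let `Ω` be an algebraic closure of `F`.  Then for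
every set `U` of valuation rings of `F` over `k` there is no section of `π₁(U) → G_k`.  If `F` is the
function field of the curve, such `U` are given by the smooth projective curve and by all its open
subcurves. -/
def NoSection (n : ℕ) (a : k) (f : k[X]) : Prop :=
  ∀ (F Ω : Type) [Field F] [Field Ω] [Algebra k F] [Algebra F Ω] [Algebra k Ω]
    [IsScalarTower k F Ω] [IsAlgClosure F Ω] (x y : F) (U : Set (ValuationSubring F)),
    algebraMap k F a * y ^ n = aeval x f → (∀ O ∈ U, ∀ c : k, algebraMap k F c ∈ O) →
      NoSplitting k F Ω (unramified F Ω U)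

/-- Let `F = k(x, y)` be the function field of the curve `a y^ℓ = f(x)`, let `Ω` be an algebraic
closure of `F`, and let `M` be the maximal unramified pro-`ℓ` extension of `k̄ F`.  For all
extensions `N ⊇ M` of `F` in `Ω`, in particular for `N = M`, there is no section of
`Gal(N/F) → G_k`. -/
def NoProEllSection (ℓ : ℕ) (a : k) (f : k[X]) : Prop :=
  ∀ (F Ω : Type) [Field F] [Field Ω] [Algebra k F] [Algebra F Ω] [Algebra k Ω]
    [IsScalarTower k F Ω] [IsAlgClosure F Ω] (x y : F), Transcendental k x →
    algebraMap k F a * y ^ ℓ = aeval x f →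
    IntermediateField.adjoin k {x, y} = (⊤ : IntermediateField k F) →
    ∀ N : IntermediateField F Ω, proEllField ℓ k F Ω ≤ N → NoSplitting k F Ω N

end curves

section numberFields

/-- The polynomial `c₁ + c₂ x + … + c_{d+1} x^d` over `K`, for a vector `(c₀, …, c_{d+1})` of integers of
`K`. -/
noncomputable def poly {K : Type} [Field K] [NumberField K] {d : ℕ} (c : Fin (d + 2) → 𝓞 K) : K[X] :=
  ∑ i : Fin (d + 1), C (algebraMap (𝓞 K) K (c i.succ)) * X ^ (i : ℕ)

/-- The primes `v` of `K` such that for every prime of the extension `L` above `v` the ramification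
index is divisible by `ℓ` or the residue degree is divisible by `d`. -/
def AbsorbedPrimes (ℓ d : ℕ) (K L : Type) [Field K] [NumberField K] [Field L] [NumberField L]
    [Algebra K L] : Set (HeightOneSpectrum (𝓞 K)) :=
  {v | ∀ w : HeightOneSpectrum (𝓞 L), w.asIdeal.LiesOver v.asIdeal →
    ℓ ∣ v.asIdeal.ramificationIdx' w.asIdeal ∨ d ∣ v.asIdeal.inertiaDeg' w.asIdeal}

/-- Over the field `L` there are no points and no sections: for all `n ≥ 1` divisible by `ℓ` the curve
`a yⁿ = f(x)` has neither points nor sections over `L`, and the geometrically pro-`ℓ` fundamental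
group of the curve `a y^ℓ = f(x)` over `L` has no section. -/
def NothingOver (L : Type) [Field L] (ℓ : ℕ) (a : L) (f : L[X]) : Prop :=
  (∀ n : ℕ, 0 < n → ℓ ∣ n → NoPoint n a f ∧ NoSection n a f) ∧ NoProEllSection ℓ a f

/-- The vectors `c = (a, c₀, …, c_d)` of integers of `K` which do not have the following property:
`a ≠ 0`, the polynomial `f = c₀ + … + c_d x^d` is irreducible of degree `d` over `K`, and for all finite
extensions `L` of `K` and all prime numbers `ℓ` which divide `d`, if there are fewer than `M` primes of
`K` such that for all the primes of `L` above them the ramification index is divisible by `ℓ` or the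
residue degree is divisible by `d`, or if `ℓ` does not divide `[L : K]`, then over `L` there are no
points and no sections for `a`, `f` and `ℓ`. -/
def Exceptional (K : Type) [Field K] [NumberField K] (d M : ℕ) : Set (Fin (d + 2) → 𝓞 K) :=
  {c | ¬ (c 0 ≠ 0 ∧ (poly c).natDegree = d ∧ Irreducible (poly c) ∧
    ∀ (L : Type) [Field L] [NumberField L] [Algebra K L], ∀ ℓ : ℕ, ℓ.Prime → ℓ ∣ d →
      ((AbsorbedPrimes ℓ d K L).encard < M ∨ ¬ ℓ ∣ Module.finrank K L) →
        NothingOver L ℓ (algebraMap K L (c 0)) ((poly c).map (algebraMap K L)))}

/-- Density zero: for every `ε > 0` there is an ideal `I ≠ 0` such that `E` lies in at most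
`ε #(O_K/I)ᴺ` residue classes modulo `I`. -/
def DensityZero {K : Type} [Field K] [NumberField K] {N : ℕ} (E : Set (Fin N → 𝓞 K)) : Prop :=
  ∀ ε : ℝ, 0 < ε → ∃ I : Ideal (𝓞 K), I ≠ ⊥ ∧
    (Set.ncard ((fun (t : Fin N → 𝓞 K) i => Ideal.Quotient.mk I (t i)) '' E) : ℝ) ≤
      ε * (Nat.card (𝓞 K ⧸ I) : ℝ) ^ N

end numberFields

lemma iSup_congr_prop {α : Type} [CompleteLattice α] {P Q : α → Prop} (h : ∀ L, P L ↔ Q L) :
    (⨆ L : {L // P L}, L.1) = ⨆ L : {L // Q L}, L.1 := by
  have h1 : P = Q := funext fun L => propext (h L)
  subst h1
  rfl

lemma proEll_eq (ℓ : ℕ) (k F Ω : Type) [Field k] [Field F] [Field Ω] [Algebra k F] [Algebra F Ω]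
    [Algebra k Ω] : proEllField ℓ k F Ω = Pool.Agent.Y157.PS.geomPro ℓ k F Ω := by
  unfold proEllField Pool.Agent.Y157.PS.geomPro maxProEll Pool.Agent.Y157.PS.maxPro
  congr 1
  refine iSup_congr_prop fun L => ?_
  constructor
  · rintro ⟨⟨h1, h2, h3⟩, h4⟩
    refine ⟨⟨h1, h2, h3⟩, fun W hW z hz hz0 => ?_⟩
    obtain ⟨t, ht, h5, h6⟩ := h4 W hW z hz hz0
    exact ⟨t, ht, div_ne_zero hz0 ((_root_.map_ne_zero _).2 ht), h5, h6⟩
  · rintro ⟨⟨h1, h2, h3⟩, h4⟩
    refine ⟨⟨h1, h2, h3⟩, fun W hW z hz hz0 => ?_⟩
    obtain ⟨t, ht, -, h5, h6⟩ := h4 W hW z hz hz0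
    exact ⟨t, ht, h5, h6⟩

lemma of_fine {k : Type} [Field k] (l : ℕ) (a : k) (f : k[X])
    (h : Pool.Agent.Y157.PS.FineP l a f) (n : ℕ) (hn : l ∣ n) (hd : l ∣ f.natDegree) :
    NoPoint n a f ∧ NoSection n a f := by
  obtain ⟨-, h1, h2, h3⟩ := h
  obtain ⟨n', rfl⟩ := hn
  refine ⟨⟨?_, ?_⟩, ?_⟩
  · rintro ⟨x, y, hxy⟩
    apply h2 x (y ^ n')
    rw [← hxy, ← pow_mul, mul_comm n' l]
  · rintro ⟨r, hr⟩
    obtain ⟨e, he⟩ := Nat.dvd_gcd (Dvd.intro n' rfl : l ∣ l * n') hd
    apply h3 (r ^ e)
    rw [← hr, ← pow_mul, mul_comm e l, he]
  · intro F Ω _ _ _ _ _ _ _ x y U hxy hU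
    have hcl : IsAlgClosed Ω := IsAlgClosure.isAlgClosed F
    have halg : Algebra.IsAlgebraic F Ω := IsAlgClosure.isAlgebraic
    have h4 := h1 F Ω U hU x (y ^ n') (by rw [← hxy, ← pow_mul, mul_comm n' l])
    exact ⟨fun s => h4.false ⟨s.toHom, s.cont, s.compat⟩⟩

/-- Let `K` be a number field and `d ≥ 3`.  For all vectors `(a, c₀, …, c_d)` of integers of `K` outside
a set of density zero, the polynomial `f = c₀ + … + c_d x^d` is irreducible of degree `d`, and for all
finite extensions `L` of `K`, all prime numbers `ℓ` which divide `d`, such that for fewer than `M`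
primes of `K` all primes of `L` above them have a ramification index divisible by `ℓ` or a residue
degree divisible by `d`, or such that `ℓ` does not divide `[L : K]`, and for all `n ≥ 1` divisible by
`ℓ`: the curve `a yⁿ = f(x)` has no point over `L`, the fundamental groups of its open subcurves over
`L` and of all smooth curves over `L` that dominate it have no sections, and the geometrically
pro-`ℓ` fundamental group of the curve `a y^ℓ = f(x)` over `L` has no section. -/
theorem result (K : Type) [Field K] [NumberField K] (d : ℕ) (hd : 3 ≤ d) (M : ℕ) :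
    DensityZero (Exceptional K d M) := by
  intro ε hε
  obtain ⟨I, hI, hfin, hle⟩ := Pool.Agent.Q52.SecX.main_fam (K := K) d hd M ε hε
  refine ⟨I, hI, le_trans ?_ hle⟩
  have hsub : Exceptional K d M ⊆ {y : Fin (d + 2) → 𝓞 K | ¬ (y 0 ≠ 0 ∧
      (Pool.Agent.TH377.Sup.pol fun i : Fin (d + 1) => algebraMap (𝓞 K) K (y i.succ)).natDegree = d ∧
      Irreducible (Pool.Agent.TH377.Sup.pol fun i : Fin (d + 1) =>
        algebraMap (𝓞 K) K (y i.succ)) ∧
      ∀ (L : Type) [Field L] [NumberField L] [Algebra K L], ∀ ℓ : ℕ, ℓ.Prime → ℓ ∣ d →
        ((Pool.Agent.Q52.SecX.RamSet2 ℓ d K L).encard < M ∨ ¬ ℓ ∣ Module.finrank K L) →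
        Pool.Agent.Y157.PS.FineP ℓ (algebraMap K L (algebraMap (𝓞 K) K (y 0)))
          ((Pool.Agent.TH377.Sup.pol fun i : Fin (d + 1) =>
            algebraMap (𝓞 K) K (y i.succ)).map (algebraMap K L)))} := by
    rintro c hc ⟨h1, h2, h3, h4⟩
    apply hc
    have hpoly : poly c = Pool.Agent.TH377.Sup.pol fun i : Fin (d + 1) =>
        algebraMap (𝓞 K) K (c i.succ) := rfl
    rw [hpoly]
    refine ⟨h1, h2, h3, ?_⟩
    intro L _ _ _ ℓ hℓ hℓd hor
    have h5 := h4 L ℓ hℓ hℓd hor
    have h6 : ℓ ∣ ((Pool.Agent.TH377.Sup.pol fun i : Fin (d + 1) =>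
        algebraMap (𝓞 K) K (c i.succ)).map (algebraMap K L)).natDegree := by
      rwa [natDegree_map, h2]
    refine ⟨fun n _ hn => of_fine ℓ _ _ h5 n hn h6, ?_⟩
    intro F Ω _ _ _ _ _ _ _ x y hx hxy hF N hN
    have hcl : IsAlgClosed Ω := IsAlgClosure.isAlgClosed F
    have halg : Algebra.IsAlgebraic F Ω := IsAlgClosure.isAlgebraic
    rw [proEll_eq] at hN
    exact ⟨fun s => h5.1 F Ω x y hx hxy hF N hN s.toHom s.cont s.compat⟩
  exact_mod_cast Set.ncard_le_ncard (Set.image_mono hsub) (Set.toFinite _)

end Pool.Agent.Results.MP_c1dca2_ag.AllCurvesAllExtensions
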