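import Pool.Agent.Q161.GfE

/-!
# Sections of 100% of the generalised Fermat curves, over all extensions at once

Let `K` be a number field, `n ≥ 3` and `N ≥ 2`.  For a matrix `A = (a_ij)` of integers of `K` with `N - 1`
rows and `N + 1` columns let `X_A` be the complete intersection of diagonal hypersurfaces

  `∑_j a_ij x_j ^ n = 0`,  `i = 1, …, N - 1`,

in the projective space of dimension `N`, a twist of the generalised Fermat curves; for `N = 2` these
are the diagonal plane curves `a x ^ n + b y ^ n + c z ^ n = 0`.  If all maximal minors of `A` are not
zero then `X_A` is a smooth geometrically irreducible curve, a covering of the line with group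
`(ℤ/n)^N` and `N + 1` branch points, of genus at least two unless `n = 3` and `N = 2`.  Let `M` be any
natural number.  We prove, for all matrices `A` outside a set of density zero:

*All maximal minors of `A` are not zero.  Let `L` be any number field containing `K` and `ℓ` a prime
number that divides `n`, such that there are fewer than `M` primes of `K` all of whose local degrees
in `L` are divisible by `ℓ`, or such that `ℓ` does not divide `[L : K]`.  Then `X_A` has no point over
`L`, and the fundamental group of `X_A` over `L`, those of its open subcurves over `L` and those of all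
smooth curves (and varieties) over `L` with a rational map to `X_A` have no sections over `G_L`.*

So for almost all systems of coefficients the section conjecture holds (without points and sections)
for `X_A` over all extensions `L` of `K` of degree prime to `n`, and over many others, at the same
time; the degree of `L` is not bounded and the exceptional set does not depend on `L`.  The curves that
dominate `X_A` include, for `N = 2`, the plane curves `a P ^ n + b Q ^ n + c R ^ n = 0` for ALL forms
`P`, `Q`, `R` of the same degree over `L`; the exceptional set of the coefficients `(a, b, c)` does not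
depend on `P`, `Q`, `R` either.  The condition on `L` cannot be left out, since `X_A` has points over
`K((-b / a) ^ (1/n))`.  The exceptional set has density zero in a strong sense: for every `ε > 0` there
is an ideal `I ≠ 0` of `O_K` such that the exceptional matrices lie in at most
`ε #(O_K/I)^((N - 1)(N + 1))` residue classes modulo `I`.

The families in the starting files and in `SmallExtensions` and `MP_c1dca2_ag.AllCurvesAllExtensions`
are the superelliptic curves `a yⁿ = f(x)` with `f` fixed or with all coefficients of `f` varying; the
generalised Fermat curves do not meet these families in a set of positive density (the polynomials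
`b xⁿ + c` have only two coefficients), and for `N ≥ 3` they are not plane curves.

The fundamental group is described through valuations.  Let `U` be a smooth geometrically connected
curve over `k` with function field `F`, let `Ω` be an algebraic closure of `F`, and let `F_U` be the
maximal extension of `F` inside `Ω` which is unramified over the closed points of `U`, that is, over
their local rings, which are valuation rings of `F`.  Then `π₁(U) = Gal(F_U/F)`, and the map
`π₁(U) → G_k` is the restriction of automorphisms to the algebraic closure of `k` in `Ω`.

Proof.  Eliminating `N - 2` of the variables one finds a relation `t₀ xⁿ + t₁ yⁿ + t₂ zⁿ = 0` between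
three coordinates, where `t₀`, `t₁`, `t₂` are maximal minors of `A`.  Let `v` be a prime of `K` not
dividing `n` with `N v ≡ 1` modulo `ℓ`.  For a proportion of at least `2^(-N - 1) (1/N v - 1/(N v)²)` of
the matrices modulo `v²` the minor `t₀` is divisible exactly once by `v`, `t₁` is prime to `v`, and
`-t₂/t₁` is not an `ℓ`-th power modulo `v`: count the invertible matrices and the triples
`(t₀, t₁, t₂)`.  The sum of the `1/N v` over these `v` diverges, so almost all matrices have this
property for at least `M + 1` primes `v`.  Let `w` be a prime of `L` above such a `v` whose local degree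
is not divisible by `ℓ`.  Then the valuation of `t₀` at `w` is not divisible by `ℓ`, and `-t₂/t₁` is not
an `ℓ`-th power modulo `w` either, since the residue degree is prime to `ℓ` (take norms), so the
separable polynomial `t₁ xⁿ + t₂` has no root modulo `w`.  By the local theorem for superelliptic curves
(`Pool.Agent.Y157.PS.fineP`, helper157) there are no sections for the curve `-t₀ y^ℓ = t₁ xⁿ + t₂` over
`L`.
-/

open NumberField IsDedekindDomain

namespace Pool.Agent.Results.MP_c1dca2_ag.GeneralisedFermatCurves

section definitions

variable (k F Ω : Type) [Field k] [Field F] [Field Ω] [Algebra k F] [Algebra F Ω] [Algebra k Ω]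

/-- The inertia group of the valuation ring `W` of `Ω`, as a subgroup of `Gal(Ω/F)`: the
automorphisms of `Ω` over `F` that map `W` onto itself and act as the identity on its residue
field. -/
noncomputable def inertia (W : ValuationSubring Ω) : Subgroup (Ω ≃ₐ[F] Ω) :=
  (W.inertiaSubgroup F).map (W.decompositionSubgroup F).subtype

/-- `F_U`, for a set `U` of valuation rings of `F`: the elements of `Ω` fixed by the inertia groups
of all valuation rings `W` of `Ω` with `W ∩ F ∈ U`.  If `Ω` is an algebraic closure of a field `F`
of characteristic zero, this is the maximal extension of `F` in `Ω` unramified over `U`. -/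
noncomputable def unramified (U : Set (ValuationSubring F)) : IntermediateField F Ω :=
  ⨅ W : {W : ValuationSubring Ω // W.comap (algebraMap F Ω) ∈ U},
    IntermediateField.fixedField (inertia F Ω W.1)

/-- The map `τ : M → M` acts as `σ : K → K` on the elements that the fields `K` and `M` have in
common when they are regarded as subfields of `Ω` through `i` and `j`. -/
def ActsAs {K M Ω : Type} [Field K] [Field M] [Field Ω] (i : K →+* Ω) (j : M →+* Ω) (σ : K → K)
    (τ : M → M) : Prop :=
  ∀ c z, j z = i c → j (τ z) = i (σ c)

/-- Let `k ⊆ K ⊆ Ω` and `F ⊆ N ⊆ Ω` be fields.  A splitting of `Gal(N/F) → Gal(K/k)`: a continuous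
homomorphism `s` from `Gal(K/k)` to `Gal(N/F)` such that `s(σ)` acts as `σ` on the elements of
`K ∩ N`. -/
structure Splitting (K N : Type) [Field K] [Field N] [Algebra k K] [Algebra F N] [Algebra K Ω]
    [Algebra N Ω] where
  /-- the homomorphism `Gal(K/k) → Gal(N/F)` -/
  toHom : (K ≃ₐ[k] K) →* (N ≃ₐ[F] N)
  cont : Continuous toHom
  compat : ∀ σ : K ≃ₐ[k] K, ActsAs (algebraMap K Ω) (algebraMap N Ω) σ (toHom σ)

/-- There are no sections of `Gal(N/F) → G_k`, where `G_k = Gal(k̄/k)` and `k̄` is the algebraic
closure of `k` in `Ω`.  For `N = F_U` these are the sections of `π₁(U) → G_k`. -/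
def NoSplitting (N : IntermediateField F Ω) : Prop :=
  IsEmpty (Splitting k F Ω (algebraicClosure k Ω) N)

end definitions

section curves

variable {k : Type} [Field k] {m : ℕ}

/-- `x` is a solution over the extension `F` of `k` of the system of the `m + 1` diagonal equations
`∑ j, A i j * x j ^ n = 0` in `m + 3` variables; so `N = m + 2`. -/
def Solves (n : ℕ) (A : Fin (m + 1) → Fin (m + 3) → k) {F : Type} [Field F] [Algebra k F]
    (x : Fin (m + 3) → F) : Prop :=
  ∀ i, ∑ j, algebraMap k F (A i j) * x j ^ n = 0

/-- The curve `X_A` in the projective space has no point over `k`. -/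
def NoPoint (n : ℕ) (A : Fin (m + 1) → Fin (m + 3) → k) : Prop :=
  ∀ x : Fin (m + 3) → k, Solves n A x → x = 0

/-- Let `F` be any field over `k` over which `X_A` has a point, for instance the function field of
the curve `X_A` or of a variety over `k` with a rational map to `X_A`, and let `Ω` be an algebraic
closure of `F`.  Then for every set `U` of valuation rings of `F` over `k` there is no section of
`π₁(U) → G_k`.  If `F` is the function field of a curve, such `U` are given by the smooth projective
curve and by all its open subcurves. -/
def NoSection (n : ℕ) (A : Fin (m + 1) → Fin (m + 3) → k) : Prop :=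
  ∀ (F Ω : Type) [Field F] [Field Ω] [Algebra k F] [Algebra F Ω] [Algebra k Ω]
    [IsScalarTower k F Ω] [IsAlgClosure F Ω] (x : Fin (m + 3) → F) (U : Set (ValuationSubring F)),
    x ≠ 0 → Solves n A x → (∀ O ∈ U, ∀ c : k, algebraMap k F c ∈ O) →
      NoSplitting k F Ω (unramified F Ω U)

end curves

section numberFields

/-- The primes of `K` all of whose local degrees `e f` in the extension `L` are divisible by `ℓ`. -/
def PrimesWithDivisibleDegrees (ℓ : ℕ) (K L : Type) [Field K] [NumberField K] [Field L]
    [NumberField L] [Algebra K L] : Set (HeightOneSpectrum (𝓞 K)) :=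
  {v | ∀ w : HeightOneSpectrum (𝓞 L), w.asIdeal.LiesOver v.asIdeal →
    ℓ ∣ v.asIdeal.ramificationIdx' w.asIdeal * v.asIdeal.inertiaDeg' w.asIdeal}

/-- The matrices `A` of integers of `K` which do not have the following property: all maximal minors
of `A` are not zero, and for all number fields `L` containing `K` and all prime numbers `ℓ` which
divide `n`, if there are fewer than `M` primes of `K` all of whose local degrees in `L` are divisible
by `ℓ`, or if `ℓ` does not divide `[L : K]`, then over `L` there are no points and no sections for
`X_A`. -/
def Exceptional (K : Type) [Field K] [NumberField K] (n m M : ℕ) :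
    Set (Fin (m + 1) → Fin (m + 3) → 𝓞 K) :=
  {A | ¬ ((∀ τ : Fin (m + 1) → Fin (m + 3), Function.Injective τ →
      (Matrix.of fun i j => A i (τ j)).det ≠ 0) ∧
    ∀ (L : Type) [Field L] [NumberField L] [Algebra K L] (ℓ : ℕ), ℓ.Prime → ℓ ∣ n →
      ((PrimesWithDivisibleDegrees ℓ K L).encard < M ∨ ¬ ℓ ∣ Module.finrank K L) →
        NoPoint n (fun i j => algebraMap K L (algebraMap (𝓞 K) K (A i j))) ∧
        NoSection n (fun i j => algebraMap K L (algebraMap (𝓞 K) K (A i j))))}

/-- Density zero: for every `ε > 0` there is an ideal `I ≠ 0` such that the matrices in `E` lie in at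
most `ε #(O_K/I)^(r s)` residue classes modulo `I`, where `r` and `s` are the numbers of rows and
columns. -/
def DensityZero {K : Type} [Field K] [NumberField K] {r s : ℕ} (E : Set (Fin r → Fin s → 𝓞 K)) :
    Prop :=
  ∀ ε : ℝ, 0 < ε → ∃ I : Ideal (𝓞 K), I ≠ ⊥ ∧
    (Set.ncard ((fun (A : Fin r → Fin s → 𝓞 K) i j => Ideal.Quotient.mk I (A i j)) '' E) : ℝ) ≤
      ε * (Nat.card (𝓞 K ⧸ I) : ℝ) ^ (r * s)

end numberFields

open Pool.Agent.Q161.Gf in
/-- Let `K` be a number field, `n ≥ 3` and `m, M ≥ 0`.  For all matrices `A` of integers of `K` with
`m + 1` rows and `m + 3` columns outside a set of density zero, all maximal minors of `A` are not zero,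
and for all number fields `L` containing `K` and all prime numbers `ℓ` which divide `n`, such that there
are fewer than `M` primes of `K` all of whose local degrees in `L` are divisible by `ℓ`, or such that
`ℓ` does not divide `[L : K]`: the curve `X_A : ∑ j, A i j * x j ^ n = 0` in the projective space of
dimension `m + 2` has no point over `L`, and the fundamental groups of its open subcurves over `L` and
of all smooth curves over `L` that dominate it have no sections. -/
theorem result (K : Type) [Field K] [NumberField K] (n : ℕ) (hn : 3 ≤ n) (m M : ℕ) :
    DensityZero (Exceptional K n m M) := by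
  intro ε hε
  obtain ⟨I, hI, hfin, hle⟩ := main_all (K := K) n hn m M ε hε
  refine ⟨I, hI, le_trans ?_ (hle.trans (le_of_eq (by rw [mul_comm (m + 3) (m + 1)])))⟩
  have hset : ∀ (L : Type) [Field L] [NumberField L] [Algebra K L] (ℓ : ℕ), ℓ.Prime →
      PrimesWithDivisibleDegrees ℓ K L = Pool.Agent.Q52.SecX.RamSet2 ℓ ℓ K L := by
    intro L _ _ _ ℓ hℓ
    ext v
    exact forall_congr' fun w => forall_congr' fun _ => hℓ.dvd_mul
  have key : ((fun (A : Fin (m + 1) → Fin (m + 3) → 𝓞 K) i j => Ideal.Quotient.mk I (A i j)) ''
      Exceptional K n m M).ncard ≤ (Pool.Agent.TH120.Sec.red I ((m + 3) * (m + 1)) ''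
        {a : Fin ((m + 3) * (m + 1)) → 𝓞 K | ¬
          ((∀ τ : Fin (m + 1) → Fin (m + 3), Function.Injective τ →
            (Matrix.of fun i j => colOf a (τ j) i).det ≠ 0) ∧
          ∀ (L : Type) [Field L] [NumberField L] [Algebra K L] (ℓ : ℕ), ℓ.Prime → ℓ ∣ n →
            ((Pool.Agent.Q52.SecX.RamSet2 ℓ ℓ K L).encard < M ∨ ¬ ℓ ∣ Module.finrank K L) →
              trip a 0 ≠ 0 ∧ FineT ℓ n L (trip a))}).ncard := by
    refine Set.ncard_le_ncard_of_injOn
      (fun B t => B (finProdFinEquiv.symm t).2 (finProdFinEquiv.symm t).1) ?_ ?_ (Set.toFinite _)
    · rintro _ ⟨A, hA, rfl⟩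
      refine ⟨fun t => A (finProdFinEquiv.symm t).2 (finProdFinEquiv.symm t).1, ?_, rfl⟩
      have hcol : ∀ j i, colOf (fun t => A (finProdFinEquiv.symm t).2 (finProdFinEquiv.symm t).1) j i =
          A i j := by
        intro j i
        change A (finProdFinEquiv.symm (finProdFinEquiv (j, i))).2
          (finProdFinEquiv.symm (finProdFinEquiv (j, i))).1 = A i j
        rw [Equiv.symm_apply_apply]
      intro hgood
      obtain ⟨h1, h2⟩ := hgood
      apply hA
      refine ⟨?_, ?_⟩
      · intro τ hτ
        have h3 := h1 τ hτ
        simp only [hcol] at h3
        exact h3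
      · intro L _ _ _ ℓ hℓ hℓn hor
        rw [hset L ℓ hℓ] at hor
        obtain ⟨h3, h4⟩ := h2 L ℓ hℓ hℓn hor
        refine ⟨?_, ?_⟩
        · intro x hx
          refine no_point n (by omega) ℓ hℓn _ h3 h4 x ?_
          intro i
          rw [← hx i]
          refine Finset.sum_congr rfl fun j _ => ?_
          rw [hcol]
          rfl
        · intro F Ω _ _ _ _ _ _ _ x U hx0 hx hU
          have hcl : IsAlgClosed Ω := IsAlgClosure.isAlgClosed F
          have halg : Algebra.IsAlgebraic F Ω := IsAlgClosure.isAlgebraic
          have h5 := no_sec n (by omega) ℓ hℓn _ h3 h4 F Ω U hU x hx0 (by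
            intro i
            rw [← hx i]
            refine Finset.sum_congr rfl fun j _ => ?_
            rw [hcol])
          exact ⟨fun s => h5.false ⟨s.toHom, s.cont, s.compat⟩⟩
    · intro B _ B' _ h
      funext i j
      have h1 := congrFun h (finProdFinEquiv (j, i))
      simp only [Equiv.symm_apply_apply] at h1
      exact h1
  exact_mod_cast key

end Pool.Agent.Results.MP_c1dca2_ag.GeneralisedFermatCurves
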