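import Pool.Agent.Q138.PS.TT
import Pool.Agent.Results.MP_c1dca2_ag.TwistsWithMixedFactors
import Pool.Agent.Results.MP_2f3286_ag.AllEvenFactors

/-!
# The section conjecture for almost all twists by the integers `± ⌊α P(n)⌋`

Let `q ≥ 2`. Outside a set of real numbers of Hausdorff dimension at most `q / (q + 1 / (q 2 ^ (q - 1)))` (that is
`8 / 9` for `q = 2`) every `α > 0` has the following property, for ALL integral polynomials `P` of degree `q` with positive
leading coefficient and coefficients of size at most `N ^ η`. Let `f` be a squarefree polynomial of degree at least `4` with all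
irreducible factors of even degree, or with at least four factors of odd degree, none of them linear, and even degree. For all
but `O (N / (log N) ^ δ)` of the `n ≤ N` the squarefree part `d` of `± ⌊α P(n)⌋` is such that, for all even `m`, the curve
`d y ^ m = f(x)` has no rational point and its fundamental group (and that of its open subcurves and coverings) has no section.
-/

set_option autoImplicit false

universe v w

open Finset Filter Topology MeasureTheory Polynomial
open Pool.Agent.Q138.PS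

namespace Pool.Agent.Results.MP_c1dca2_ag.NoSectionsAlongRealMultiples

open Pool.Agent.Results.MP_c1dca2_ag.TwistsWithMixedFactors (Factors Exceptional)
open Pool.Agent.Results.MP_2f3286_ag.AllEvenFactors (EvenFactors)

open Classical in
/-- the number of the pairs of an integer `1 ≤ n ≤ N` and a sign `s` for which `s ⌊α P(n)⌋ = d m²` with a squarefree
number `d` which has the property `Z` -/
noncomputable def count (α : ℝ) (P : ℤ[X]) (N : ℕ) (Z : ℤ → Prop) : ℕ :=
  ((Icc 1 N ×ˢ ({1, -1} : Finset ℤ)).filter fun x : ℕ × ℤ =>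
    ∃ (d : ℤ) (m : ℕ), Squarefree d ∧ 1 ≤ m ∧ d * (m : ℤ) ^ 2 = x.2 * (⌊α * ((P.eval (x.1 : ℤ) : ℤ) : ℝ)⌋₊ : ℤ) ∧
      Z d).card

/-- the squarefree part of `± ⌊α P(n)⌋` has the property `Z` for at most `C N / (log N) ^ δ` of the `n ≤ N`, uniformly
in the polynomials `P` of degree `q` with positive leading coefficient and coefficients of size at most `N ^ η` -/
def Few (q : ℕ) (α : ℝ) (Z : ℤ → Prop) : Prop :=
  ∃ η δ C : ℝ, 0 < η ∧ 0 < δ ∧ ∀ᶠ N : ℕ in atTop, ∀ P : ℤ[X], P.natDegree = q → 0 < P.leadingCoeff →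
    (∀ j, |((P.coeff j : ℤ) : ℝ)| ≤ (N : ℝ) ^ η) → (count α P N Z : ℝ) ≤ C * N * (Real.log N) ^ (-δ)

theorem countable_pol : Countable ℤ[X] :=
  Cardinal.mk_le_aleph0_iff.1 (by
    refine (Polynomial.cardinalMk_le_max (R := ℤ)).trans ?_
    simp)

theorem countable_polQ : Countable ℚ[X] :=
  Cardinal.mk_le_aleph0_iff.1 (by
    refine (Polynomial.cardinalMk_le_max (R := ℚ)).trans ?_
    simp)

/-- **Theorem.** Let `q ≥ 2`. There is a set `E` of Hausdorff dimension at most `q / (q + 1 / (q 2 ^ (q - 1)))` such that for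
each `α > 0` outside `E`, with `d` the squarefree part of `± ⌊α P(n)⌋`, `n ≤ N`, uniformly in `P`: for squarefree `f ∈ ℚ[x]`
of degree at least `4` with all irreducible factors of even degree, and for `f = ∏ k, f k` with `f k ∈ ℤ[x]` irreducible over
`ℚ`, pairwise non-associated, of even total degree, at least four of odd degree and none linear, some curve `d y ^ m = f(x)`,
`m ≥ 2` even, has a rational point or a section only for `O (N / (log N) ^ δ)` of the pairs `(n, ±)`. There are `f` of both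
kinds for which all these curves have points everywhere locally. -/
theorem result (q : ℕ) (hq : 2 ≤ q) :
    (∃ E : Set ℝ, dimH E ≤ ENNReal.ofReal ((q : ℝ) / (q + 1 / (q * 2 ^ (q - 1)))) ∧ ∀ α : ℝ, 0 < α → α ∉ E →
      (∀ f : ℚ[X], Squarefree f → 4 ≤ f.natDegree → EvenFactors f →
        Few q α (fun d => MP_2f3286_ag.AllEvenFactors.Exceptional.{v, w} f d)) ∧
      (∀ (k : ℕ) (f : Fin k → ℤ[X]), Factors f → (∀ k, (f k).natDegree ≠ 1) →
        Few q α (fun d => Exceptional.{v, w} (∏ k, (f k).map (Int.castRingHom ℚ)) d))) ∧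
    (Squarefree MP_2f3286_ag.AllEvenFactors.ex ∧ MP_2f3286_ag.AllEvenFactors.ex.natDegree = 6 ∧
      EvenFactors MP_2f3286_ag.AllEvenFactors.ex ∧ (∃ x : ℝ, aeval x MP_2f3286_ag.AllEvenFactors.ex = 0) ∧
      ∀ (p : ℕ) [Fact p.Prime], ∃ x : ℚ_[p], aeval x MP_2f3286_ag.AllEvenFactors.ex = 0) ∧
    (Factors MP_c1dca2_ag.TwistsWithMixedFactors.ex ∧ (∀ k, (MP_c1dca2_ag.TwistsWithMixedFactors.ex k).natDegree ≠ 1) ∧
      (∃ x : ℝ, ∏ k, aeval x (MP_c1dca2_ag.TwistsWithMixedFactors.ex k) = 0) ∧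
      ∀ (p : ℕ) [Fact p.Prime], ∃ x : ℚ_[p], ∏ k, aeval x (MP_c1dca2_ag.TwistsWithMixedFactors.ex k) = 0) := by
  classical
  have := countable_pol
  have := countable_polQ
  obtain ⟨hM1, hM2⟩ := MP_c1dca2_ag.TwistsWithMixedFactors.result.{v, w}
  obtain ⟨hA1, hA2⟩ := MP_2f3286_ag.AllEvenFactors.result.{v, w}
  refine ⟨?_, hA2, hM2⟩
  obtain ⟨E1, hdim1, hT1⟩ := exc_sqf (ι := ℚ[X]) q hq
    (fun f d => MP_2f3286_ag.AllEvenFactors.Exceptional.{v, w} f d)
  obtain ⟨E2, hdim2, hT2⟩ := exc_sqf (ι := Σ k : ℕ, (Fin k → ℤ[X])) q hq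
    (fun i d => Exceptional.{v, w} (∏ k, (i.2 k).map (Int.castRingHom ℚ)) d)
  refine ⟨E1 ∪ E2, ?_, fun α hα hαE => ⟨fun f hf1 hf2 hf3 => ?_, fun k f hF hl => ?_⟩⟩
  · rw [dimH_union]
    exact max_le hdim1 hdim2
  · obtain ⟨δ, hδ, C, hC⟩ := hA1 f hf1 hf2 hf3
    obtain ⟨η, hη, h1⟩ := hT1 α hα (fun h => hαE (Or.inl h)) f
    obtain ⟨C', hC'⟩ := h1 δ C hδ (fun Y hY => hC Y (by omega))
    exact ⟨η, δ, C', hη, hδ, hC'⟩
  · obtain ⟨δ, hδ, C, hC⟩ := hM1 (Fin k) f hF hl
    obtain ⟨η, hη, h1⟩ := hT2 α hα (fun h => hαE (Or.inr h)) ⟨k, f⟩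
    obtain ⟨C', hC'⟩ := h1 δ C hδ hC
    exact ⟨η, δ, C', hη, hδ, hC'⟩

end Pool.Agent.Results.MP_c1dca2_ag.NoSectionsAlongRealMultiples
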