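import Pool.Agent.Q161.GgD

/-!
# Sections of 100% of the superelliptic curves with branch points of prescribed degrees

Let `K` be a number field, `r ≥ 1` and `d₁, …, d_r ≥ 2` with `d₁ + … + d_r ≥ 3`.  For all polynomials
`f₁, …, f_r` of degrees `d₁, …, d_r` and all `a`, with coefficients in the ring of integers `O_K`, we
consider the curves

  `a yⁿ = f₁(x) ⋯ f_r(x)`,  `n ≥ 2` not coprime to `d₁ + … + d_r`,

that is, the superelliptic curves whose branch points have the prescribed degrees `d₁, …, d_r` over
`K`.  (Among all superelliptic curves of degree `d₁ + … + d_r` they form a thin set if `r ≥ 2`, so that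
nothing follows for them from theorems about almost all superelliptic curves.)  Let `M` be any natural
number.  We prove, for all systems `(a, f₁, …, f_r)` outside a set of density zero:

*`a ≠ 0`, the polynomial `f_i` is irreducible of degree `d_i`, and `f = f₁ ⋯ f_r` is separable.  Let `L`
be a finite extension of `K` and `ℓ` a prime number that divides `d₁ + … + d_r`.  Suppose that the
degree `[L : K]` is not a sum of numbers (with repetitions) from `{ℓ, d₁, …, d_r}`, or that there are
fewer than `M` primes `v` of `K` such that for each prime of `L` above `v` the ramification index is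
divisible by `ℓ` or the residue degree is divisible by one of the `d_i`.  Then for all `n ≥ 1`
divisible by `ℓ` the curve `a yⁿ = f(x)` has no point over `L`, its fundamental group over `L`, that of
its open subcurves over `L` and that of all smooth curves over `L` which dominate it have no sections
over `G_L`, and the geometrically pro-`ℓ` fundamental group of the curve `a y^ℓ = f(x)` over `L` has no
section.*

The exceptional set does not depend on `L`.  The condition on the degree is best possible in the
following sense: the curve `a y^ℓ = f(x)` has points over fields of the degrees `d₁, …, d_r` (the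
branch points) and over fields of degree `ℓ` or `1` (above the points `x ∈ K`), so that every sum of
numbers from `{ℓ, d₁, …, d_r}` is the degree of an étale algebra over `K` over which the curve has
points.  So for 100% of the curves the fields of the excluded degrees are just those for which
no point is visible, and there the section conjecture holds, without points and sections.  In
particular (`L = K`) there are no sections over `K` itself, and none over the extensions of a degree
less than `ℓ, d₁, …, d_r`.  A factor of degree one must be excluded: it gives a rational point.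

If the numbers `d_i` are coprime, for instance `(d₁, d₂) = (3, 5)` and `ℓ = 2`, genus 3, then the
curve has index one, that is, a divisor of degree one, so that the obstruction of Stix to sections
from the period and the index vanishes.  In `MP_c1dca2_ag.AllCurvesAllExtensions` there is one
irreducible polynomial, all branch points have the same degree, and the condition on the degree of
`L` is that `ℓ` does not divide it.  In `MP_2f3286_ag.SmallExtensions` the polynomial `f` is fixed and
only `a` varies.

The set of the exceptional systems has density zero in a strong sense: for every `ε > 0` there is an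
ideal `I ≠ 0` of `O_K` such that the exceptional systems lie in at most `ε #(O_K/I)ᴺ` residue classes
modulo `I`, where `N = d₁ + … + d_r + r + 1` is the number of the coefficients.

The fundamental group is described through valuations.  Let `U` be a smooth geometrically connected
curve over `k` with function field `F`, let `Ω` be an algebraic closure of `F`, and let `F_U` be the
maximal extension of `F` inside `Ω` which is unramified over the closed points of `U`, that is, over
their local rings, which are valuation rings of `F`.  Then `π₁(U) = Gal(F_U/F)`, and the map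
`π₁(U) → G_k` is the restriction of automorphisms to the algebraic closure of `k` in `Ω`.

Proof.  Let `c = ∏ 1/(4 d_i)`.  For a prime `v` of `K` a proportion of at least
`c (1/N v - 1/(N v)²)` of all systems modulo `v²` has the property that `a` is divisible exactly once
by `v` and all `f_i` are irreducible of degree `d_i` modulo `v`; and the proportion of those with two
proportional polynomials is `O(1/(N v)³)`, also when two of the `d_i` are equal, as the other
coefficients `a` and those of `f_i` then satisfy at least four linear conditions for given ratio.  As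
the sum of the `1/N v` diverges, almost all systems are good in this sense for at least `M + 1` primes
`v` that do not divide `d₁ + … + d_r`.  Let `w` be a prime of `L` above such a prime `v`, whose
ramification index is not divisible by `ℓ` and whose residue degree is divisible by no `d_i`.  Then `f`
is separable and has no root modulo `w`, and the valuation of `a` at `w` is not divisible by `ℓ`, so
that the local theorem for superelliptic curves (`Pool.Agent.Y157.PS.fineP`, helper157) shows that
there are no sections over `L`.  Otherwise all these `v` are among the fewer than `M` primes of the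
theorem, which is not possible; and as `[L : K]` is the sum of the products of the ramification
indices and the residue degrees, it is a sum of multiples of `ℓ, d₁, …, d_r`.
-/

open Polynomial NumberField IsDedekindDomain

namespace Pool.Agent.Results.MP_c1dca2_ag.PrescribedFactorDegrees

section definitions

variable (ℓ : ℕ) (k F Ω : Type) [Field k] [Field F] [Field Ω] [Algebra k F] [Algebra F Ω]
  [Algebra k Ω]

/-- The inertia group of the valuation ring `W` of `Ω`, as a subgroup of `Gal(Ω/F)`: the
automorphisms of `Ω` over `F` that map `W` onto itself and act as the identity on its residue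
field. -/
noncomputable def inertia (W : ValuationSubring Ω) : Subgroup (Ω ≃ₐ[F] Ω) :=
  (W.inertiaSubgroup F).map (W.decompositionSubgroup F).subtype

/-- `F_U`, for a set `U` of valuation rings of `F`: the elements of `Ω` fixed by the inertia groups
of all valuation rings `W` of `Ω` with `W ∩ F ∈ U`.  If `Ω` is an algebraic closure of a field `F`
of characteristic zero, this is the maximal extension of `F` in `Ω` unramified over `U`. -/
noncomputable def unramified (U : Set (ValuationSubring F)) : IntermediateField F Ω :=
  ⨅ W : {W : ValuationSubring Ω // W.comap (algebraMap F Ω) ∈ U},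
    IntermediateField.fixedField (inertia F Ω W.1)

/-- `k̄ F`, the compositum of `F` and of the algebraic closure of `k` in `Ω`. -/
noncomputable def geomField : IntermediateField F Ω :=
  IntermediateField.adjoin F (algebraicClosure k Ω : Set Ω)

/-- The algebraic extension `L` of `K` in `Ω` is unramified at all valuation rings of `Ω` that
contain `k`: every nonzero element of `L` has the same valuation as an element of `K`.  (If `K` is
a function field of one variable over the algebraic closure of `k` and `k` has characteristic zero,
then this says that `L/K` is unramified over all points of the smooth projective curve.) -/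
def Unramified {k K Ω : Type} [Field k] [Field K] [Field Ω] [Algebra k Ω] [Algebra K Ω]
    (L : IntermediateField K Ω) : Prop :=
  ∀ W : ValuationSubring Ω, (∀ c : k, algebraMap k Ω c ∈ W) → ∀ z ∈ L, z ≠ 0 →
    ∃ t : K, t ≠ 0 ∧ z / algebraMap K Ω t ∈ W ∧ (z / algebraMap K Ω t)⁻¹ ∈ W

/-- `L/K` is a finite Galois extension whose degree is a power of `ℓ`. -/
def FiniteProEll (ℓ : ℕ) {K Ω : Type} [Field K] [Field Ω] [Algebra K Ω]
    (L : IntermediateField K Ω) : Prop :=
  FiniteDimensional K L ∧ IsGalois K L ∧ ∃ m : ℕ, Module.finrank K L = ℓ ^ m

/-- The maximal unramified pro-`ℓ` extension of `K` in `Ω`: the compositum of the finite Galois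
extensions of `K` whose degree is a power of `ℓ` and which are unramified. -/
noncomputable def maxProEll (ℓ : ℕ) (k K Ω : Type) [Field k] [Field K] [Field Ω] [Algebra k Ω]
    [Algebra K Ω] : IntermediateField K Ω :=
  ⨆ L : {L : IntermediateField K Ω // FiniteProEll ℓ L ∧ Unramified (k := k) L}, L.1

/-- `M`, the maximal unramified pro-`ℓ` extension of `k̄ F` in `Ω`, as an extension of `F`. -/
noncomputable def proEllField : IntermediateField F Ω :=
  (maxProEll ℓ k (geomField k F Ω) Ω).restrictScalars F

/-- The map `τ : M → M` acts as `σ : K → K` on the elements that the fields `K` and `M` have in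
common when they are regarded as subfields of `Ω` through `i` and `j`. -/
def ActsAs {K M Ω : Type} [Field K] [Field M] [Field Ω] (i : K →+* Ω) (j : M →+* Ω) (σ : K → K)
    (τ : M → M) : Prop :=
  ∀ c z, j z = i c → j (τ z) = i (σ c)

/-- Let `k ⊆ K ⊆ Ω` and `F ⊆ N ⊆ Ω` be fields.  A splitting of `Gal(N/F) → Gal(K/k)`: a continuous
homomorphism `s` from `Gal(K/k)` to `Gal(N/F)` such that `s(σ)` acts as `σ` on the elements of
`K ∩ N`. -/
structure Splitting (K N : Type) [Field K] [Field N] [Algebra k K] [Algebra F N] [Algebra K Ω]
    [Algebra N Ω] where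
  /-- the homomorphism `Gal(K/k) → Gal(N/F)` -/
  toHom : (K ≃ₐ[k] K) →* (N ≃ₐ[F] N)
  cont : Continuous toHom
  compat : ∀ σ : K ≃ₐ[k] K, ActsAs (algebraMap K Ω) (algebraMap N Ω) σ (toHom σ)

/-- There are no sections of `Gal(N/F) → G_k`, where `G_k = Gal(k̄/k)` and `k̄` is the algebraic
closure of `k` in `Ω`.  For `N = F_U` these are the sections of `π₁(U) → G_k`. -/
def NoSplitting (N : IntermediateField F Ω) : Prop :=
  IsEmpty (Splitting k F Ω (algebraicClosure k Ω) N)

end definitions

section curves

variable {k : Type} [Field k]

/-- The smooth projective curve with the affine equation `a yⁿ = f(x)` has no point over `k`: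
neither in the affine part nor at infinity. -/
def NoPoint (n : ℕ) (a : k) (f : k[X]) : Prop :=
  (¬ ∃ x y : k, a * y ^ n = f.eval x) ∧
    ¬ ∃ r : k, a * r ^ Nat.gcd n f.natDegree = f.leadingCoeff

/-- Let `F` be any field over `k` that contains a point `(x, y)` of the curve `a yⁿ = f(x)`, for
instance the function field of the curve, and let `Ω` be an algebraic closure of `F`.  Then for
every set `U` of valuation rings of `F` over `k` there is no section of `π₁(U) → G_k`.  If `F` is the
function field of the curve, such `U` are given by the smooth projective curve and by all its open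
subcurves. -/
def NoSection (n : ℕ) (a : k) (f : k[X]) : Prop :=
  ∀ (F Ω : Type) [Field F] [Field Ω] [Algebra k F] [Algebra F Ω] [Algebra k Ω]
    [IsScalarTower k F Ω] [IsAlgClosure F Ω] (x y : F) (U : Set (ValuationSubring F)),
    algebraMap k F a * y ^ n = aeval x f → (∀ O ∈ U, ∀ c : k, algebraMap k F c ∈ O) →
      NoSplitting k F Ω (unramified F Ω U)

/-- Let `F = k(x, y)` be the function field of the curve `a y^ℓ = f(x)`, let `Ω` be an algebraic
closure of `F`, and let `M` be the maximal unramified pro-`ℓ` extension of `k̄ F`.  For all
extensions `N ⊇ M` of `F` in `Ω`, in particular for `N = M`, there is no section of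
`Gal(N/F) → G_k`. -/
def NoProEllSection (ℓ : ℕ) (a : k) (f : k[X]) : Prop :=
  ∀ (F Ω : Type) [Field F] [Field Ω] [Algebra k F] [Algebra F Ω] [Algebra k Ω]
    [IsScalarTower k F Ω] [IsAlgClosure F Ω] (x y : F), Transcendental k x →
    algebraMap k F a * y ^ ℓ = aeval x f →
    IntermediateField.adjoin k {x, y} = (⊤ : IntermediateField k F) →
    ∀ N : IntermediateField F Ω, proEllField ℓ k F Ω ≤ N → NoSplitting k F Ω N

end curves

section numberFields

/-- The index set of the coefficients of a system `(a, f₁, …, f_r)`: `none` is the index of `a`, and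
`some ⟨i, j⟩` is the index of the coefficient of `x ^ j` in `f_i`, `0 ≤ j ≤ d_i`. -/
abbrev Index {r : ℕ} (d : Fin r → ℕ) : Type := Option (Σ i : Fin r, Fin (d i + 1))

/-- The polynomial `f_i` over `K`, for a system `c` of integers of `K`. -/
noncomputable def factor {K : Type} [Field K] [NumberField K] {r : ℕ} {d : Fin r → ℕ}
    (c : Index d → 𝓞 K) (i : Fin r) : K[X] :=
  ∑ j : Fin (d i + 1), C (algebraMap (𝓞 K) K (c (some ⟨i, j⟩))) * X ^ (j : ℕ)

/-- The primes `v` of `K` such that for every prime of the extension `L` above `v` the ramification
index is divisible by `ℓ` or the residue degree is divisible by some `d_i`. -/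
def AbsorbedPrimes {r : ℕ} (ℓ : ℕ) (d : Fin r → ℕ) (K L : Type) [Field K] [NumberField K] [Field L]
    [NumberField L] [Algebra K L] : Set (HeightOneSpectrum (𝓞 K)) :=
  {v | ∀ w : HeightOneSpectrum (𝓞 L), w.asIdeal.LiesOver v.asIdeal →
    ℓ ∣ v.asIdeal.ramificationIdx' w.asIdeal ∨ ∃ i, d i ∣ v.asIdeal.inertiaDeg' w.asIdeal}

/-- The sums of numbers, with repetitions, from `{ℓ, d₁, …, d_r}`. -/
def Sums {r : ℕ} (ℓ : ℕ) (d : Fin r → ℕ) : AddSubmonoid ℕ :=
  AddSubmonoid.closure (insert ℓ (Set.range d))

/-- Over the field `L` there are no points and no sections: for all `n ≥ 1` divisible by `ℓ` the curve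
`a yⁿ = f(x)` has neither points nor sections over `L`, and the geometrically pro-`ℓ` fundamental
group of the curve `a y^ℓ = f(x)` over `L` has no section. -/
def NothingOver (L : Type) [Field L] (ℓ : ℕ) (a : L) (f : L[X]) : Prop :=
  (∀ n : ℕ, 0 < n → ℓ ∣ n → NoPoint n a f ∧ NoSection n a f) ∧ NoProEllSection ℓ a f

/-- The systems `c = (a, f₁, …, f_r)` of integers of `K` which do not have the following property:
`a ≠ 0`, the polynomials `f_i` are irreducible of degree `d_i` over `K`, their product `f` is
separable, and for all finite extensions `L` of `K` and all prime numbers `ℓ` which divide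
`d₁ + … + d_r`, if there are fewer than `M` primes of `K` such that for all the primes of `L` above
them the ramification index is divisible by `ℓ` or the residue degree is divisible by some `d_i`, or
if `[L : K]` is not a sum of numbers from `{ℓ, d₁, …, d_r}`, then over `L` there are no points and no
sections for `a`, `f` and `ℓ`. -/
def Exceptional (K : Type) [Field K] [NumberField K] {r : ℕ} (d : Fin r → ℕ) (M : ℕ) :
    Set (Index d → 𝓞 K) :=
  {c | ¬ (c none ≠ 0 ∧ (∀ i, (factor c i).natDegree = d i ∧ Irreducible (factor c i)) ∧
    (∏ i, factor c i).Separable ∧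
    ∀ (L : Type) [Field L] [NumberField L] [Algebra K L], ∀ ℓ : ℕ, ℓ.Prime → ℓ ∣ ∑ i, d i →
      ((AbsorbedPrimes ℓ d K L).encard < M ∨ Module.finrank K L ∉ Sums ℓ d) →
        NothingOver L ℓ (algebraMap K L (c none)) ((∏ i, factor c i).map (algebraMap K L)))}

/-- Density zero: for every `ε > 0` there is an ideal `I ≠ 0` such that `E` lies in at most
`ε #(O_K/I)ᴺ` residue classes modulo `I`, where `N` is the number of the coordinates. -/
def DensityZero {K : Type} [Field K] [NumberField K] {ι : Type} [Fintype ι] (E : Set (ι → 𝓞 K)) :
    Prop :=
  ∀ ε : ℝ, 0 < ε → ∃ I : Ideal (𝓞 K), I ≠ ⊥ ∧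
    (Set.ncard ((fun (t : ι → 𝓞 K) i => Ideal.Quotient.mk I (t i)) '' E) : ℝ) ≤
      ε * (Nat.card (𝓞 K ⧸ I) : ℝ) ^ Fintype.card ι

end numberFields

lemma iSup_congr_prop {α : Type} [CompleteLattice α] {P Q : α → Prop} (h : ∀ L, P L ↔ Q L) :
    (⨆ L : {L // P L}, L.1) = ⨆ L : {L // Q L}, L.1 := by
  have h1 : P = Q := funext fun L => propext (h L)
  subst h1
  rfl

lemma proEll_eq (ℓ : ℕ) (k F Ω : Type) [Field k] [Field F] [Field Ω] [Algebra k F] [Algebra F Ω]
    [Algebra k Ω] : proEllField ℓ k F Ω = Pool.Agent.Y157.PS.geomPro ℓ k F Ω := by
  unfold proEllField Pool.Agent.Y157.PS.geomPro maxProEll Pool.Agent.Y157.PS.maxPro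
  congr 1
  refine iSup_congr_prop fun L => ?_
  constructor
  · rintro ⟨⟨h1, h2, h3⟩, h4⟩
    refine ⟨⟨h1, h2, h3⟩, fun W hW z hz hz0 => ?_⟩
    obtain ⟨t, ht, h5, h6⟩ := h4 W hW z hz hz0
    exact ⟨t, ht, div_ne_zero hz0 ((_root_.map_ne_zero _).2 ht), h5, h6⟩
  · rintro ⟨⟨h1, h2, h3⟩, h4⟩
    refine ⟨⟨h1, h2, h3⟩, fun W hW z hz hz0 => ?_⟩
    obtain ⟨t, ht, -, h5, h6⟩ := h4 W hW z hz hz0
    exact ⟨t, ht, h5, h6⟩

lemma of_fine {k : Type} [Field k] (l : ℕ) (a : k) (f : k[X])
    (h : Pool.Agent.Y157.PS.FineP l a f) (n : ℕ) (hn : l ∣ n) (hd : l ∣ f.natDegree) :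
    NoPoint n a f ∧ NoSection n a f := by
  obtain ⟨-, h1, h2, h3⟩ := h
  obtain ⟨n', rfl⟩ := hn
  refine ⟨⟨?_, ?_⟩, ?_⟩
  · rintro ⟨x, y, hxy⟩
    apply h2 x (y ^ n')
    rw [← hxy, ← pow_mul, mul_comm n' l]
  · rintro ⟨r, hr⟩
    obtain ⟨e, he⟩ := Nat.dvd_gcd (Dvd.intro n' rfl : l ∣ l * n') hd
    apply h3 (r ^ e)
    rw [← hr, ← pow_mul, mul_comm e l, he]
  · intro F Ω _ _ _ _ _ _ _ x y U hxy hU
    have hcl : IsAlgClosed Ω := IsAlgClosure.isAlgClosed F
    have halg : Algebra.IsAlgebraic F Ω := IsAlgClosure.isAlgebraic
    have h4 := h1 F Ω U hU x (y ^ n') (by rw [← hxy, ← pow_mul, mul_comm n' l])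
    exact ⟨fun s => h4.false ⟨s.toHom, s.cont, s.compat⟩⟩

/-- Let `K` be a number field, `r ≥ 1` and `d₁, …, d_r ≥ 2` with `d₁ + … + d_r ≥ 3`.  For all systems
`(a, f₁, …, f_r)` of an integer and of polynomials of degrees `d₁, …, d_r` with coefficients in the
integers of `K`, outside a set of density zero, the `f_i` are irreducible, `f = f₁ ⋯ f_r` is separable,
and for all finite extensions `L` of `K`, all prime numbers `ℓ` which divide `d₁ + … + d_r`, such that
`[L : K]` is not a sum of numbers from `{ℓ, d₁, …, d_r}` or such that for fewer than `M` primes of `K`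
all primes of `L` above them have a ramification index divisible by `ℓ` or a residue degree divisible
by some `d_i`, and for all `n ≥ 1` divisible by `ℓ`: the curve `a yⁿ = f(x)` has no point over `L`, the
fundamental groups of its open subcurves over `L` and of all smooth curves over `L` that dominate it
have no sections, and the geometrically pro-`ℓ` fundamental group of the curve `a y^ℓ = f(x)` over `L`
has no section. -/
theorem result (K : Type) [Field K] [NumberField K] {r : ℕ} (d : Fin r → ℕ) (hd : ∀ i, 2 ≤ d i)
    (h3 : 3 ≤ ∑ i, d i) (M : ℕ) : DensityZero (Exceptional K d M) := by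
  intro ε hε
  obtain ⟨I, hI, hfin, hle⟩ := Pool.Agent.Q161.Gg.main_prod (K := K) d hd h3 M ε hε
  refine ⟨I, hI, le_trans ?_ hle⟩
  refine Nat.cast_le.2 (Set.ncard_le_ncard (Set.image_mono ?_) (Set.toFinite _))
  rintro c hc ⟨h1, h2, h4, h5⟩
  apply hc
  refine ⟨h1, h2, h4, ?_⟩
  intro L _ _ _ ℓ hℓ hℓd hor
  have h6 := h5 L ℓ hℓ hℓd hor
  change Pool.Agent.Y157.PS.FineP ℓ (algebraMap K L (algebraMap (𝓞 K) K (c none)))
    ((∏ i, factor c i).map (algebraMap K L)) at h6
  change ∀ i, (factor c i).natDegree = d i ∧ Irreducible (factor c i) at h2
  have h7 : ℓ ∣ ((∏ i, factor c i).map (algebraMap K L)).natDegree := by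
    rw [natDegree_map, natDegree_prod _ _ fun i _ => (h2 i).2.ne_zero]
    have h8 : ∑ i, (factor c i).natDegree = ∑ i, d i :=
      Finset.sum_congr rfl fun i _ => (h2 i).1
    rw [h8]
    exact hℓd
  refine ⟨fun n _ hn => of_fine ℓ _ _ h6 n hn h7, ?_⟩
  intro F Ω _ _ _ _ _ _ _ x y hx hxy hF N hN
  have hcl : IsAlgClosed Ω := IsAlgClosure.isAlgClosed F
  have halg : Algebra.IsAlgebraic F Ω := IsAlgClosure.isAlgebraic
  rw [proEll_eq] at hN
  exact ⟨fun s => h6.1 F Ω x y hx hxy hF N hN s.toHom s.cont s.compat⟩

end Pool.Agent.Results.MP_c1dca2_ag.PrescribedFactorDegrees
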